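import Pool.Agent.Q267.E8.Stm2

set_option autoImplicit false

namespace Pool.Agent.Q176.E8

open Finset Pool.Agent.Q267.CDE Pool.Agent.Q267.MW Pool.Agent.Q267.E8

/-- Job PV1. -/
theorem pv1 : S_EV → S_PV1 := by
  intro hEV p n _ S _ _ r h hr hh
  have hH : 2 * algebraMap (R p) S h = 1 := by
    rw [← map_ofNat (algebraMap (R p) S) 2, ← map_mul, hh, map_one]
  have h1 : 1 + 2 * ((1 + r) * algebraMap (R p) S h) = r * (1 + r) := by
    linear_combination (1 + r) * hH - hr
  rw [hEV S (2 * n) ((1 + r) * algebraMap (R p) S h)]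
  unfold Pf
  rw [h1, show 2 * n / 2 = n by omega, map_sum, mul_sum]
  refine sum_congr rfl fun j hj => ?_
  rw [mem_range] at hj
  obtain ⟨i, hi⟩ : ∃ i, n = j + i := ⟨n - j, by omega⟩
  subst hi
  rw [show 2 * (j + i) - 2 * j = 2 * i by omega, show j + i - j = i by omega]
  simp only [map_mul, map_natCast, map_pow, map_ofNat]
  have h2 : (r * (1 + r)) ^ (2 * i) = 2 ^ i * (1 + r) ^ (2 * i) := by
    rw [mul_pow, pow_mul r, hr]
  rw [h2, mul_pow (1 + r) _ 2, mul_pow, ← pow_mul, show 2 * (j + i) = 2 * j + 2 * i by ring, pow_add]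
  ring

end Pool.Agent.Q176.E8
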